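import Pool.Agent.U624.KT.Stm

/-!
# Project KT, package THREE: `2 α` is a sum of three squares
-/

set_option autoImplicit false

open scoped Quaternion
open Quaternion (normSq)

namespace Pool.Agent.U890.KT

open Pool.Agent.U624.KT

theorem s_bound (σ : K →+* ℝ) : 0 < 2 + σ s := by
  have h : (σ s) ^ 2 = 2 := by rw [← map_pow, s_sq, map_ofNat]
  nlinarith [sq_nonneg (σ s + 1), sq_nonneg (σ s - 1)]

theorem TP_two_add : TP (2 + s) := by
  intro σ
  rw [map_add, map_ofNat]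
  exact s_bound σ

theorem two_mem : (2 : K) ∈ R := by
  have := R.add_mem R.one_mem R.one_mem
  rwa [one_add_one_eq_two] at this

/-- there is a real embedding -/
theorem exists_emb : Nonempty (K →+* ℝ) := by
  refine ⟨emb (Real.sqrt 2) ((1 + Real.sqrt 5) / 2) (Real.sq_sqrt (by norm_num)) ?_⟩
  have h5 : (Real.sqrt 5) ^ 2 = 5 := Real.sq_sqrt (by norm_num)
  linear_combination (1 / 4) * h5

theorem TP.ne {x : K} (h : TP x) : x ≠ 0 := by
  obtain ⟨σ⟩ := exists_emb
  intro h0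
  have := h σ
  rw [h0, map_zero] at this
  exact lt_irrefl _ this

theorem two_sub_ne : (2 : K) - s ≠ 0 := by
  intro h
  have h2 : (2 + s) * (2 - s) = 2 := by
    have := s_sq
    linear_combination -this
  rw [h, mul_zero] at h2
  exact two_ne_zero h2.symm

theorem normSq_eq (q : ℍ[K]) : normSq q = q.re ^ 2 + q.imI ^ 2 + q.imJ ^ 2 + q.imK ^ 2 :=
  Quaternion.normSq_def' q

/-- the left ideal `OS + OS v` -/
def idl (h1 : S_ORD) (v : ℍ[K]) : AddSubgroup ℍ[K] where
  carrier := {q | ∃ t t', OS t ∧ OS t' ∧ q = t + t' * v}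
  add_mem' := by
    rintro _ _ ⟨t, t', ht, ht', rfl⟩ ⟨u, u', hu, hu', rfl⟩
    exact ⟨t + u, t' + u', h1.2.2.1 _ _ ht hu, h1.2.2.1 _ _ ht' hu', by noncomm_ring⟩
  zero_mem' := by
    have h0 : OS (0 : ℍ[K]) := by
      have := h1.1 0 R.zero_mem
      simpa using this
    exact ⟨0, 0, h0, h0, by simp⟩
  neg_mem' := by
    rintro _ ⟨t, t', ht, ht', rfl⟩
    exact ⟨-t, -t', h1.2.2.2.1 _ ht, h1.2.2.2.1 _ ht', by noncomm_ring⟩

theorem mem_idl (h1 : S_ORD) (v q : ℍ[K]) :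
    q ∈ idl h1 v ↔ ∃ t t', OS t ∧ OS t' ∧ q = t + t' * v := Iff.rfl

/-- the trace pairing with `v` -/
noncomputable def prn (t v : ℍ[K]) : K := 2 * (t.re * v.re + t.imI * v.imI + t.imJ * v.imJ + t.imK * v.imK)

theorem prn_add (t u v : ℍ[K]) : prn (t + u) v = prn t v + prn u v := by
  simp only [prn, Quaternion.re_add, Quaternion.imI_add, Quaternion.imJ_add, Quaternion.imK_add]
  ring

theorem prn_neg (t v : ℍ[K]) : prn (-t) v = -prn t v := by
  simp only [prn, Quaternion.re_neg, Quaternion.imI_neg, Quaternion.imJ_neg, Quaternion.imK_neg]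
  ring

theorem prn_zero (v : ℍ[K]) : prn 0 v = 0 := by
  simp [prn]

theorem prn_coe_mul (r : K) (t v : ℍ[K]) : prn ((r : ℍ[K]) * t) v = r * prn t v := by
  simp only [prn, Quaternion.re_mul, Quaternion.imI_mul, Quaternion.imJ_mul, Quaternion.imK_mul,
    Quaternion.re_coe, Quaternion.imI_coe, Quaternion.imJ_coe, Quaternion.imK_coe]
  ring

theorem normSq_add_mul (t t' v : ℍ[K]) :
    normSq (t + t' * v) = normSq t + normSq t' * normSq v + prn (star t' * t) v := by
  simp only [normSq_eq, prn, Quaternion.re_add, Quaternion.imI_add, Quaternion.imJ_add,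
    Quaternion.imK_add, Quaternion.re_mul, Quaternion.imI_mul, Quaternion.imJ_mul,
    Quaternion.imK_mul, Quaternion.re_star, Quaternion.imI_star, Quaternion.imJ_star,
    Quaternion.imK_star]
  ring

theorem normSq_add' (t v : ℍ[K]) : normSq (t + v) = normSq t + normSq v + prn t v := by
  simp only [normSq_eq, prn, Quaternion.re_add, Quaternion.imI_add, Quaternion.imJ_add,
    Quaternion.imK_add]
  ring

/-- the ideal `D R + {2 re (t star (D v))}` -/
def gid (h1 : S_ORD) (D : K) (v : ℍ[K]) : AddSubgroup K where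
  carrier := {x | ∃ r ∈ R, ∃ t, OS t ∧ x = D * r + D * prn t v}
  add_mem' := by
    rintro _ _ ⟨r, hr, t, ht, rfl⟩ ⟨r', hr', t', ht', rfl⟩
    exact ⟨r + r', R.add_mem hr hr', t + t', h1.2.2.1 _ _ ht ht', by rw [prn_add]; ring⟩
  zero_mem' := by
    have h0 : OS (0 : ℍ[K]) := by
      have := h1.1 0 R.zero_mem
      simpa using this
    exact ⟨0, R.zero_mem, 0, h0, by rw [prn_zero]; ring⟩
  neg_mem' := by
    rintro _ ⟨r, hr, t, ht, rfl⟩
    exact ⟨-r, R.neg_mem hr, -t, h1.2.2.2.1 _ ht, by rw [prn_neg]; ring⟩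

theorem mem_gid (h1 : S_ORD) (D : K) (v : ℍ[K]) (x : K) :
    x ∈ gid h1 D v ↔ ∃ r ∈ R, ∃ t, OS t ∧ x = D * r + D * prn t v := Iff.rfl

theorem prn_mem {t v : ℍ[K]} {D : K} (ht : OS t) (h0 : v.re = 0) (hI : D * v.imI ∈ R)
    (hJ : D * v.imJ ∈ R) (hK : D * v.imK ∈ R) : D * prn t v ∈ R := by
  have e : D * prn t v = (2 * t.imI) * (D * v.imI) + (2 * t.imJ) * (D * v.imJ) +
      (2 * t.imK) * (D * v.imK) := by
    rw [prn, h0]; ring
  rw [e]
  exact R.add_mem (R.add_mem (R.mul_mem ht.2.1 hI) (R.mul_mem ht.2.2.1 hJ))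
    (R.mul_mem ht.2.2.2.1 hK)

/-- the case in which `α` is not a square -/
theorem nonsquare (h1 : S_ORD) (h2 : S_CONJ) (h3 : S_TWO) (h4 : S_CHAIN) (h5 : S_EXT) (α : K)
    (hα : α ∈ R) (hT : TP α) (hns : ¬ ∃ δ : K, δ ^ 2 = α) :
    ∃ A ∈ R, ∃ B ∈ R, ∃ C ∈ R, A ^ 2 + B ^ 2 + C ^ 2 = 2 * α := by
  obtain ⟨w, hw, z, hz, β, hβ, β', hβ', p, hzT, hβT, e1, ⟨r, hr, t, ht, e2⟩, hp, hp4, e3⟩ :=
    h5 α hα hT hns
  obtain ⟨x, ⟨n1, hn1⟩, y, ⟨n2, hn2⟩, e4⟩ := h3 β β' p hβ hβ' hβT hp hp4 e3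
  have hz0 : z ≠ 0 := TP.ne hzT
  have hα0 : α ≠ 0 := TP.ne hT
  set n := n1 + n2 with hn
  have hnx : (2 : K) ^ n * x ∈ R := by
    have : (2 : K) ^ n * x = 2 ^ n2 * (2 ^ n1 * x) := by rw [hn]; ring
    rw [this]
    exact R.mul_mem (R.pow_mem two_mem _) hn1
  have hny : (2 : K) ^ n * y ∈ R := by
    have : (2 : K) ^ n * y = 2 ^ n1 * (2 ^ n2 * y) := by rw [hn]; ring
    rw [this]
    exact R.mul_mem (R.pow_mem two_mem _) hn2
  set v : ℍ[K] := ⟨0, w / z, x / z, y / z⟩ with hv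
  have v0 : v.re = 0 := rfl
  have vI : v.imI = w / z := rfl
  have vJ : v.imJ = x / z := rfl
  have vK : v.imK = y / z := rfl
  have hN : normSq v = α := by
    rw [normSq_eq, v0, vI, vJ, vK]
    have : w ^ 2 + x ^ 2 + y ^ 2 = α * z ^ 2 := by rw [e1, ← e4]; ring
    field_simp
    linear_combination this
  have hvv : v * v = -(α : ℍ[K]) := by
    have := Quaternion.self_mul_star v
    rw [hN] at this
    have hs : star v = -v := by
      rw [Quaternion.star_eq_neg]
    rw [hs] at this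
    rw [← this]
    noncomm_ring
  set D : K := 2 ^ n * z with hD
  have hDT : TP D := by
    intro σ
    rw [hD, map_mul, map_pow, map_ofNat]
    exact mul_pos (by positivity) (hzT σ)
  have hD0 : D ≠ 0 := TP.ne hDT
  have hDR : D ∈ R := R.mul_mem (R.pow_mem two_mem _) hz
  have hDI : D * v.imI ∈ R := by
    have : D * v.imI = 2 ^ n * w := by rw [hD, vI]; field_simp
    rw [this]
    exact R.mul_mem (R.pow_mem two_mem _) hw
  have hDJ : D * v.imJ ∈ R := by
    have : D * v.imJ = 2 ^ n * x := by rw [hD, vJ]; field_simp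
    rw [this]
    exact hnx
  have hDK : D * v.imK ∈ R := by
    have : D * v.imK = 2 ^ n * y := by rw [hD, vK]; field_simp
    rw [this]
    exact hny
  have OS0 : OS (0 : ℍ[K]) := by
    have := h1.1 0 R.zero_mem
    simpa using this
  have OS1 : OS (1 : ℍ[K]) := by
    have := h1.1 1 R.one_mem
    simpa using this
  -- the ideal `g`
  have g1 : ∀ x ∈ gid h1 D v, x ∈ R := by
    rintro _ ⟨r, hr, t, ht, rfl⟩
    exact R.add_mem (R.mul_mem hDR hr) (prn_mem ht v0 hDI hDJ hDK)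
  have g2 : ∀ r ∈ R, ∀ x ∈ gid h1 D v, r * x ∈ gid h1 D v := by
    rintro r hr _ ⟨r', hr', t, ht, rfl⟩
    exact ⟨r * r', R.mul_mem hr hr', (r : ℍ[K]) * t, h1.2.2.2.2.1 _ _ (h1.1 r hr) ht,
      by rw [prn_coe_mul]; ring⟩
  have gD : D ∈ gid h1 D v := ⟨1, R.one_mem, 0, OS0, by rw [prn_zero]; ring⟩
  have OSi : OS qi := by
    apply h1.2.1
    · exact R.zero_mem
    · exact R.one_mem
    · exact R.zero_mem
    · exact R.zero_mem
  have gw : 2 ^ (n + 1) * w ∈ gid h1 D v := by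
    refine ⟨0, R.zero_mem, qi, OSi, ?_⟩
    have : prn qi v = 2 * (w / z) := by
      rw [prn, v0, vI]
      show 2 * ((0 : K) * 0 + 1 * (w / z) + 0 * v.imJ + 0 * v.imK) = _
      ring
    rw [this, hD]
    field_simp
    ring
  have g3 : (2 : K) ^ (n + 1) ∈ gid h1 D v := by
    have e : (2 : K) ^ (n + 1) = r * (2 ^ (n + 1) * w) + (2 * t) * D := by
      rw [hD]
      linear_combination (-(2 : K) ^ (n + 1)) * e2
    rw [e]
    exact (gid h1 D v).add_mem (g2 _ hr _ gw) (g2 _ (R.mul_mem two_mem ht) _ gD)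
  obtain ⟨k, hk⟩ := h4 (gid h1 D v) (n + 1) g1 g2 g3
  set a : K := (2 + s) ^ k / D with ha
  have haT : TP a := by
    intro σ
    rw [ha, map_div₀, map_pow]
    exact div_pos (pow_pos (TP_two_add σ) _) (hDT σ)
  have ha0 : a ≠ 0 := TP.ne haT
  have hL : IsLeft (idl h1 v) := by
    rintro u hu _ ⟨t, t', ht, ht', rfl⟩
    exact ⟨u * t, u * t', h1.2.2.2.2.1 _ _ hu ht, h1.2.2.2.2.1 _ _ hu ht', by noncomm_ring⟩
  have hRt : ∀ x ∈ idl h1 v, x * v ∈ idl h1 v := by
    rintro _ ⟨t, t', ht, ht', rfl⟩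
    refine ⟨-((α : ℍ[K]) * t'), t, h1.2.2.2.1 _ (h1.2.2.2.2.1 _ _ (h1.1 α hα) ht'), ht, ?_⟩
    have e : (t + t' * v) * v = t * v + t' * (v * v) := by noncomm_ring
    rw [e, hvv]
    have c : (α : ℍ[K]) * t' = t' * (α : ℍ[K]) := Quaternion.coe_commutes α t'
    rw [c]
    noncomm_ring
  have hNorm : HasNorm (idl h1 v) a := by
    constructor
    · rintro _ ⟨t, t', ht, ht', rfl⟩
      have hm : D * normSq (t + t' * v) ∈ gid h1 D v := by
        refine ⟨normSq t + normSq t' * α, R.add_mem (h1.2.2.2.2.2.2.1 _ ht)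
          (R.mul_mem (h1.2.2.2.2.2.2.1 _ ht') hα), star t' * t,
          h1.2.2.2.2.1 _ _ (h1.2.2.2.2.2.1 _ ht') ht, ?_⟩
        rw [normSq_add_mul, hN]
        ring
      obtain ⟨r', hr', e⟩ := (hk _).1 hm
      refine ⟨r', hr', ?_⟩
      rw [ha]
      field_simp
      linear_combination e
    · obtain ⟨r', hr', t', ht', e⟩ := (hk ((2 + s) ^ k)).2 ⟨1, R.one_mem, by ring⟩
      have hv1 : v ∈ idl h1 v := ⟨0, 1, OS0, OS1, by simp⟩
      have ht1 : ∀ t, OS t → t ∈ idl h1 v := fun t ht => ⟨t, 0, ht, OS0, by simp⟩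
      refine ⟨4, ![r', 1, -1, -1], ![1, t' + v, t', v], ?_, ?_, ?_⟩
      · intro i
        fin_cases i
        · exact hr'
        · exact R.one_mem
        · exact R.neg_mem R.one_mem
        · exact R.neg_mem R.one_mem
      · intro i
        fin_cases i
        · exact ht1 _ OS1
        · exact (idl h1 v).add_mem (ht1 _ ht') hv1
        · exact ht1 _ ht'
        · exact hv1
      · rw [Fin.sum_univ_four]
        show r' * normSq (1 : ℍ[K]) + 1 * normSq (t' + v) + (-1) * normSq t' + (-1) * normSq v = a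
        rw [map_one, normSq_add', ha, e]
        field_simp
        ring
  have hNR : normSq v ∈ R := by rw [hN]; exact hα
  obtain ⟨q, hq, g, w', ε, hε, ε', hε', e5, h6, h7, hg, hO, hre, e8⟩ :=
    h2 (idl h1 v) a v haT hL hNorm v0 hNR hRt
  have hε0 : ε ≠ 0 := by
    intro h
    rw [h, zero_mul] at e5
    exact zero_ne_one e5
  have hq0 : normSq q ≠ 0 := by
    rcases h6 with h | h
    · rw [h]
      exact mul_ne_zero (pow_ne_zero _ hε0) ha0
    · rw [h]
      exact mul_ne_zero (mul_ne_zero two_sub_ne (pow_ne_zero _ hε0)) ha0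
  have hg0 : normSq g ≠ 0 := by
    rcases h7 with h | h
    · rw [h]; exact one_ne_zero
    · rw [h]; exact TP.ne TP_two_add
  have hw' : normSq w' = α := by
    have e9 := congrArg normSq e8
    rw [map_mul, map_mul, map_mul, map_mul, hN] at e9
    have h0 : normSq g * normSq q ≠ 0 := mul_ne_zero hg0 hq0
    apply mul_right_cancel₀ h0
    rw [← e9]
    ring
  refine ⟨s * w'.imI, ?_, s * w'.imJ, ?_, s * w'.imK, ?_, ?_⟩
  · have := hO.2.2.2.2.1
    rw [hre] at this
    have h := R.neg_mem this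
    have e : -(s * (0 - w'.imI)) = s * w'.imI := by ring
    rwa [e] at h
  · have := hO.2.2.2.2.2.1
    rw [hre] at this
    have h := R.neg_mem this
    have e : -(s * (0 - w'.imJ)) = s * w'.imJ := by ring
    rwa [e] at h
  · have := hO.2.2.2.2.2.2.1
    rw [hre] at this
    have h := R.neg_mem this
    have e : -(s * (0 - w'.imK)) = s * w'.imK := by ring
    rwa [e] at h
  · rw [normSq_eq, hre] at hw'
    have := s_sq
    linear_combination 2 * hw' + (w'.imI ^ 2 + w'.imJ ^ 2 + w'.imK ^ 2) * this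

/-- package THREE -/
theorem t_THREE (h1 : S_ORD) (h2 : S_CONJ) (h3 : S_TWO) (h4 : S_CHAIN) (h5 : S_EXT) (h6 : S_INT) :
    S_THREE := by
  intro α hα hT
  by_cases hs : ∃ δ : K, δ ^ 2 = α
  · obtain ⟨δ, hδ⟩ := hs
    have hi : IsIntegral ℤ δ := by
      have h : IsIntegral ℤ (δ ^ 2) := by
        rw [hδ]
        exact (h6 α).2 hα
      exact IsIntegral.of_pow (by norm_num) h
    have hR : δ ∈ R := (h6 δ).1 hi
    refine ⟨δ, hR, δ, hR, 0, R.zero_mem, ?_⟩
    rw [← hδ]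
    ring
  · exact nonsquare h1 h2 h3 h4 h5 α hα hT hs

end Pool.Agent.U890.KT
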